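import Mathlib
import Pool.Agent.Q157.BentCount

/-!
For every `m ≥ 7` there is a vectorial bent function `F : 𝔽₂^(2m) → 𝔽₂^m` such that `F + L` is
not almost balanced of type `(-)` for any linear `L`.
-/

namespace Pool.Agent.Results.MP_7d7944_co.NoTypeMinus

/-- The space `𝔽₂ⁿ`. -/
abbrev V (n : ℕ) := Fin n → ZMod 2

/-- `F : 𝔽₂ⁿ → 𝔽₂ᵐ` is bent: every derivative in a nonzero direction takes each value exactly
`2^(n-m)` times. -/
def IsBent {n m : ℕ} (F : V n → V m) : Prop :=
  ∀ a : V n, a ≠ 0 → ∀ c : V m,
    (Finset.univ.filter fun x => F (x + a) + F x = c).card = 2 ^ (n - m)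

/-- Almost balanced of type `(-)`: some `α` has
`|F⁻¹(α)| = 2^(n-m) - 2^(n/2) + 2^(n/2-m)` and all `β ≠ α` have
`|F⁻¹(β)| = 2^(n-m) + 2^(n/2-m)`. -/
def IsTypeMinus {n m : ℕ} (F : V n → V m) : Prop :=
  ∃ α : V m,
    ((Finset.univ.filter fun x => F x = α).card : ℤ) =
      2 ^ (n - m) - 2 ^ (n / 2) + 2 ^ (n / 2 - m) ∧
    ∀ β : V m, β ≠ α →
      ((Finset.univ.filter fun x => F x = β).card : ℤ) = 2 ^ (n - m) + 2 ^ (n / 2 - m)

section

variable {K : Type} [Field K] [Fintype K] [DecidableEq K]

theorem derivative_card (h : K → K) {a : K × K} (ha : a ≠ 0) (c : K) :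
    (Finset.univ.filter fun p : K × K =>
      ((p.1 + a.1) * (p.2 + a.2) + h (p.2 + a.2)) - (p.1 * p.2 + h p.2) = c).card =
        Fintype.card K := by
  by_cases h2 : a.2 = 0
  · have h1 : a.1 ≠ 0 := fun h1 => ha (Prod.ext h1 h2)
    rw [← Finset.card_univ]
    symm
    refine Finset.card_bij (fun x _ => (x, c / a.1)) ?_ ?_ ?_
    · intro x _
      rw [Finset.mem_filter]
      refine ⟨Finset.mem_univ _, ?_⟩
      simp only [h2, add_zero]
      field_simp
      ring
    · intro x _ y _ hxy
      exact (Prod.mk.inj hxy).1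
    · rintro ⟨x, y⟩ hp
      rw [Finset.mem_filter] at hp
      refine ⟨x, Finset.mem_univ _, ?_⟩
      have hp2 := hp.2
      simp only [h2, add_zero] at hp2
      have : a.1 * y = c := by linear_combination hp2
      simp only [Prod.mk.injEq, true_and]
      rw [← this]
      field_simp
  · rw [← Finset.card_univ]
    symm
    refine Finset.card_bij
      (fun y _ => ((c - (a.1 * (y + a.2) + h (y + a.2) - h y)) / a.2, y)) ?_ ?_ ?_
    · intro y _
      rw [Finset.mem_filter]
      refine ⟨Finset.mem_univ _, ?_⟩
      simp only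
      field_simp
      ring
    · intro x _ y _ hxy
      exact (Prod.mk.inj hxy).2
    · rintro ⟨x, y⟩ hp
      rw [Finset.mem_filter] at hp
      refine ⟨y, Finset.mem_univ _, ?_⟩
      have hp2 := hp.2
      simp only at hp2
      simp only [Prod.mk.injEq, and_true]
      rw [← hp2]
      field_simp
      ring

end

/-- For every `m ≥ 7` there is a bent function `F : 𝔽₂^(2m) → 𝔽₂^m` such that no linear `L`
makes `F + L` almost balanced of type `(-)`. -/
theorem result : ∀ m : ℕ, 7 ≤ m → ∃ F : V (2 * m) → V m, IsBent F ∧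
    ∀ L : V (2 * m) →ₗ[ZMod 2] V m, ¬ IsTypeMinus fun x => F x + L x := by
  classical
  intro m hm
  let K := GaloisField 2 m
  have hfin : Finite K := inferInstance
  let _ : Fintype K := Fintype.ofFinite K
  have hm0 : m ≠ 0 := by omega
  have hcard : Fintype.card K = 2 ^ m := by
    rw [← Nat.card_eq_fintype_card]
    exact GaloisField.card 2 m hm0
  have hrank : Module.finrank (ZMod 2) K = m := GaloisField.finrank 2 hm0
  have hmod : Module.Finite (ZMod 2) K := Module.Finite.of_finite
  have eW : K ≃ₗ[ZMod 2] V m := LinearEquiv.ofFinrankEq _ _ (by simp [hrank])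
  have eV : (K × K) ≃ₗ[ZMod 2] V (2 * m) := LinearEquiv.ofFinrankEq _ _ (by
    rw [Module.finrank_prod, hrank]; simp; ring)
  obtain ⟨h, hh⟩ := Q157.Bent.exists_h (K := K) hm hcard
  have hsub : ∀ x y : K, x + y = x - y := by
    intro x y
    have h2 : (2 : K) = 0 := by
      have h3 : algebraMap (ZMod 2) K 2 = 2 := map_ofNat _ 2
      rw [← h3]
      have : (2 : ZMod 2) = 0 := by decide
      rw [this, map_zero]
    linear_combination y * h2
  let F' : K × K → K := fun p => p.1 * p.2 + h p.2
  refine ⟨fun x => eW (F' (eV.symm x)), ?_, ?_⟩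
  · intro a ha c
    have ha' : eV.symm a ≠ 0 := by
      intro h0
      apply ha
      have := congrArg eV h0
      simpa using this
    have h1 := derivative_card h ha' (eW.symm c)
    have h2 : 2 * m - m = m := by omega
    rw [h2, ← hcard, ← h1]
    refine Finset.card_bij (fun x _ => eV.symm x) ?_ ?_ ?_
    · intro x hx
      rw [Finset.mem_filter] at hx ⊢
      refine ⟨Finset.mem_univ _, ?_⟩
      rw [← hx.2, ← map_add eW, LinearEquiv.symm_apply_apply]
      simp only [F', map_add, Prod.fst_add, Prod.snd_add]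
      exact (hsub _ _).symm
    · intro x _ y _ hxy
      exact eV.symm.injective hxy
    · intro p hp
      rw [Finset.mem_filter] at hp
      refine ⟨eV p, ?_, by simp⟩
      rw [Finset.mem_filter]
      refine ⟨Finset.mem_univ _, ?_⟩
      rw [← map_add eW]
      have h3 := congrArg eW hp.2
      rw [LinearEquiv.apply_symm_apply] at h3
      rw [← h3]
      congr 1
      rw [← hsub]
      simp only [F', map_add, LinearEquiv.symm_apply_apply, Prod.fst_add, Prod.snd_add]
  · intro L hL
    obtain ⟨α, h1, h2⟩ := hL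
    let L' : (K × K) →ₗ[ZMod 2] K := eW.symm.toLinearMap.comp (L.comp eV.toLinearMap)
    have hcount : ∀ β : V m, (Finset.univ.filter fun x => eW (F' (eV.symm x)) + L x = β).card =
        (Finset.univ.filter fun p => Q157.Bent.G h (L'.comp (LinearMap.inl (ZMod 2) K K))
          (L'.comp (LinearMap.inr (ZMod 2) K K)) p = eW.symm β).card := by
      intro β
      have hG : ∀ p : K × K, Q157.Bent.G h (L'.comp (LinearMap.inl (ZMod 2) K K))
          (L'.comp (LinearMap.inr (ZMod 2) K K)) p = F' p + L' p := by
        intro p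
        have : L' p = L' (p.1, 0) + L' (0, p.2) := by
          rw [← map_add]; simp
        simp only [Q157.Bent.G, F', LinearMap.comp_apply, LinearMap.inl_apply,
          LinearMap.inr_apply]
        rw [this]
        ring
      refine Finset.card_bij (fun x _ => eV.symm x) ?_ ?_ ?_
      · intro x hx
        rw [Finset.mem_filter] at hx ⊢
        refine ⟨Finset.mem_univ _, ?_⟩
        rw [hG, ← hx.2, map_add, LinearEquiv.symm_apply_apply]
        simp [L']
      · intro x _ y _ hxy
        exact eV.symm.injective hxy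
      · intro p hp
        rw [Finset.mem_filter, hG] at hp
        refine ⟨eV p, ?_, by simp⟩
        rw [Finset.mem_filter]
        refine ⟨Finset.mem_univ _, ?_⟩
        have h3 := congrArg eW hp.2
        rw [LinearEquiv.apply_symm_apply, map_add] at h3
        rw [← h3]
        simp [L']
    have e1 : 2 * m - m = m := by omega
    have e2 : 2 * m / 2 = m := by omega
    rw [e1, e2, Nat.sub_self, hcount α] at h1
    refine hh (L'.comp (LinearMap.inl (ZMod 2) K K)) (L'.comp (LinearMap.inr (ZMod 2) K K))
      (eW.symm α) ⟨?_, ?_⟩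
    · have : (((Finset.univ.filter fun p => Q157.Bent.G h
          (L'.comp (LinearMap.inl (ZMod 2) K K))
          (L'.comp (LinearMap.inr (ZMod 2) K K)) p = eW.symm α).card : ℕ) : ℤ) = 1 := by
        rw [h1]; ring
      exact_mod_cast this
    · intro β hβ
      have h3 := h2 (eW β) (fun h0 => hβ (by rw [← h0, LinearEquiv.symm_apply_apply]))
      rw [e1, e2, Nat.sub_self, hcount (eW β), LinearEquiv.symm_apply_apply, pow_zero] at h3
      rw [hcard]
      exact_mod_cast h3

end Pool.Agent.Results.MP_7d7944_co.NoTypeMinus
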